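import Pool.Agent.Run7.h506.TA.Stm2
import Pool.Agent.W740.TL.DER
import Pool.Agent.W774.TL.Sum
import Pool.Agent.W819.TL.SUP

/-!
# Project TA (helper506), piece GRT: the time derivative of the Hamiltonian
-/

set_option autoImplicit false

namespace Run7.h760.TA

open Pool.Agent.W774.TL Set Filter Topology

theorem S_abs6 (u : ℝ) : |S u| ≤ 1 / 6 := by
  unfold S
  have hpi : 3 < Real.pi := Real.pi_gt_three
  rw [abs_div, abs_of_pos (by positivity : 0 < 2 * Real.pi), div_le_iff₀ (by positivity)]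
  have := Real.abs_sin_le_one (2 * Real.pi * u)
  linarith

theorem V_ge (j : ℤ) (x t : ℝ) : 7 / 12 * (3 : ℝ) ^ j.natAbs ≤ V j x t := by
  unfold V
  have h3 := (abs_le.1 (S_abs6 (x - j * t))).1
  have h4 : (0 : ℝ) < 3 ^ j.natAbs := by positivity
  nlinarith

theorem V_le (j : ℤ) (x t : ℝ) : V j x t ≤ 11 / 12 * (3 : ℝ) ^ j.natAbs := by
  unfold V
  have h3 := (abs_le.1 (S_abs6 (x - j * t))).2
  have h4 : (0 : ℝ) < 3 ^ j.natAbs := by positivity
  nlinarith

theorem hasDerivAt_E_t (j : ℤ) (x p t : ℝ) :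
    HasDerivAt (fun s => E j x p s) ((j : ℝ) * ((3 : ℝ) ^ j.natAbs * Co (x - j * t)) * E j x p t)
      t := by
  have h0 : HasDerivAt (fun s : ℝ => x - j * s) (-((j : ℝ) * 1)) t :=
    ((hasDerivAt_id t).const_mul (j : ℝ)).const_sub _
  have h1 : HasDerivAt (fun s : ℝ => S (x - j * s)) (Co (x - j * t) * (-((j : ℝ) * 1))) t := by
    have h := HasDerivAt.comp t (h₂ := S) (Pool.Agent.W740.TL.hasDerivAt_S (x - j * t)) h0
    exact h
  have h2 : HasDerivAt (fun s : ℝ => (j : ℝ) * p - V j x s)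
      (-((3 : ℝ) ^ j.natAbs * (Co (x - j * t) * (-((j : ℝ) * 1))))) t :=
    ((h1.const_add (3 / 4)).const_mul ((3 : ℝ) ^ j.natAbs)).const_sub _
  have h3 := h2.exp
  have h4 : Real.exp ((j : ℝ) * p - V j x t) *
      (-((3 : ℝ) ^ j.natAbs * (Co (x - j * t) * (-((j : ℝ) * 1))))) =
      (j : ℝ) * ((3 : ℝ) ^ j.natAbs * Co (x - j * t)) * E j x p t := by
    unfold E
    ring
  rw [h4] at h3
  exact h3

theorem term_le (j : ℤ) (x p t : ℝ) :
    ‖(j : ℝ) * ((3 : ℝ) ^ j.natAbs * Co (x - j * t)) * E j x p t‖ ≤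
      |(j : ℝ)| * (3 : ℝ) ^ j.natAbs * E j x p t := by
  have hE := Pool.Agent.W740.TL.E_pos j x p t
  have hw : (0 : ℝ) < (3 : ℝ) ^ j.natAbs := by positivity
  rw [Real.norm_eq_abs, abs_mul, abs_mul, abs_mul, abs_of_pos hE, abs_of_pos hw]
  apply mul_le_mul_of_nonneg_right _ hE.le
  apply mul_le_mul_of_nonneg_left _ (abs_nonneg _)
  exact mul_le_of_le_one_right hw.le (Pool.Agent.W740.TL.abs_Co _)

theorem tder (x p t : ℝ) : HasDerivAt (fun s => Z x p s)
    (∑' j : ℤ, (j : ℝ) * ((3 : ℝ) ^ j.natAbs * Co (x - j * t)) * E j x p t) t := by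
  obtain ⟨u, hu, hb⟩ := sum_thm 2 |p|
  refine hasDerivAt_tsum_of_isPreconnected (g := fun (j : ℤ) s => E j x p s)
    (g' := fun (j : ℤ) s => (j : ℝ) * ((3 : ℝ) ^ j.natAbs * Co (x - j * s)) * E j x p s) hu
    isOpen_univ isPreconnected_univ (fun j s _ => hasDerivAt_E_t j x p s) (fun j s _ => ?_)
    (mem_univ t) (Pool.Agent.W819.TL.E_summable sum_thm x p t) (mem_univ t)
  refine (term_le j x p s).trans (le_trans ?_ (hb j x p s le_rfl))
  apply mul_le_mul_of_nonneg_right _ (Pool.Agent.W740.TL.E_pos j x p s).le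
  rw [sq]
  apply mul_le_mul_of_nonneg_right (Pool.Agent.W740.TL.abs_le_w j) (by positivity)

theorem Z_ge (n : ℕ) (x p t : ℝ) :
    Real.exp (n * |p| - 11 / 12 * (3 : ℝ) ^ n) ≤ Z x p t := by
  rcases le_total 0 p with hp | hp
  · refine le_trans ?_ (Pool.Agent.W819.TL.E_le_Z sum_thm (n : ℤ) x p t)
    unfold E
    apply Real.exp_le_exp.2
    have := V_le (n : ℤ) x t
    rw [abs_of_nonneg hp]
    simp only [Int.natAbs_natCast, Int.cast_natCast] at this ⊢
    linarith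
  · refine le_trans ?_ (Pool.Agent.W819.TL.E_le_Z sum_thm (-(n : ℤ)) x p t)
    unfold E
    apply Real.exp_le_exp.2
    have := V_le (-(n : ℤ)) x t
    rw [abs_of_nonpos hp]
    simp only [Int.natAbs_neg, Int.natAbs_natCast, Int.cast_neg, Int.cast_natCast] at this ⊢
    linarith

theorem num (r : ℕ) (hr : 3 ≤ r) : 3 * (r : ℝ) + 11 / 12 ≤ 23 / 60 * (3 : ℝ) ^ r := by
  induction r, hr using Nat.le_induction with
  | base => norm_num
  | succ r hr ih =>
    rw [pow_succ]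
    push_cast
    have : (3 : ℝ) ≤ r := by exact_mod_cast hr
    linarith

theorem abs_cast (j : ℤ) : |(j : ℝ)| = (j.natAbs : ℝ) := by
  rw [Nat.cast_natAbs, Int.cast_abs]

/-- large `|j|` -/
theorem E_large (n : ℕ) (j : ℤ) (x p t : ℝ) (hn : 1 + |p| < (3 : ℝ) ^ (n + 1))
    (hj : n + 3 ≤ j.natAbs) :
    E j x p t ≤ Real.exp (-((3 : ℝ) ^ j.natAbs / 5)) * Z x p t := by
  have h1 : E j x p t ≤ Real.exp (-((3 : ℝ) ^ j.natAbs / 5)) *
      Real.exp (n * |p| - 11 / 12 * (3 : ℝ) ^ n) := by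
    rw [← Real.exp_add]
    unfold E
    apply Real.exp_le_exp.2
    have h2 := V_ge j x t
    have h3 : (j : ℝ) * p ≤ (j.natAbs : ℝ) * |p| := by
      rw [← abs_cast, ← abs_mul]
      exact le_abs_self _
    obtain ⟨r, hr⟩ := Nat.exists_eq_add_of_le (show n ≤ j.natAbs by omega)
    have hr3 : 3 ≤ r := by omega
    have h4 := num r hr3
    have h5 : (j.natAbs : ℝ) = n + r := by rw [hr]; push_cast; ring
    have h6 : (3 : ℝ) ^ j.natAbs = (3 : ℝ) ^ n * (3 : ℝ) ^ r := by rw [hr, pow_add]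
    rw [h5] at h3
    rw [h6] at h2 ⊢
    rw [pow_succ] at hn
    have h7 : (0 : ℝ) < (3 : ℝ) ^ n := by positivity
    have h8 : (r : ℝ) * |p| ≤ r * (3 * (3 : ℝ) ^ n) := by
      apply mul_le_mul_of_nonneg_left _ (Nat.cast_nonneg _)
      linarith
    have h9 : (3 : ℝ) ^ n * (3 * (r : ℝ) + 11 / 12) ≤ (3 : ℝ) ^ n * (23 / 60 * (3 : ℝ) ^ r) :=
      mul_le_mul_of_nonneg_left h4 h7.le
    nlinarith [h2, h3, h8, h9]
  exact h1.trans (mul_le_mul_of_nonneg_left (Z_ge n x p t) (Real.exp_pos _).le)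

/-- the summable majorant -/
noncomputable def cj (j : ℤ) : ℝ := 750 * (1 / 3 : ℝ) ^ j.natAbs

theorem summable_cj : Summable cj := by
  unfold cj
  apply Summable.mul_left
  have hg : Summable fun n : ℕ => (1 / 3 : ℝ) ^ n :=
    summable_geometric_of_lt_one (by norm_num) (by norm_num)
  apply Summable.of_nat_of_neg
  · simpa using hg
  · simpa using hg

theorem cj_ge (j : ℤ) :
    |(j : ℝ)| * (3 : ℝ) ^ j.natAbs * Real.exp (-((3 : ℝ) ^ j.natAbs / 5)) ≤ cj j := by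
  set a : ℝ := (3 : ℝ) ^ j.natAbs with ha
  have ha0 : 0 < a := by positivity
  have h1 : |(j : ℝ)| ≤ a := Pool.Agent.W740.TL.abs_le_w j
  have h2 := Real.pow_div_factorial_le_exp (a / 5) (by positivity) 3
  have h3 : ((3 : ℕ).factorial : ℝ) = 6 := by norm_num [Nat.factorial]
  rw [h3] at h2
  have h4 : cj j = 750 / a := by
    unfold cj
    rw [ha, one_div, inv_pow]
    ring
  rw [h4, Real.exp_neg, ← div_eq_mul_inv, div_le_div_iff₀ (Real.exp_pos _) ha0]
  have h5 : |(j : ℝ)| * a * a ≤ a * a * a := by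
    apply mul_le_mul_of_nonneg_right _ ha0.le
    exact mul_le_mul_of_nonneg_right h1 ha0.le
  have h6 : a * a * a ≤ 750 * Real.exp (a / 5) := by
    have : (a / 5) ^ 3 / 6 = a * a * a / 750 := by ring
    rw [this] at h2
    linarith
  linarith

/-- the bound for one term -/
theorem bound_term (n : ℕ) (j : ℤ) (x p t : ℝ) (hn : 1 + |p| < (3 : ℝ) ^ (n + 1)) :
    ‖(j : ℝ) * ((3 : ℝ) ^ j.natAbs * Co (x - j * t)) * E j x p t‖ ≤
      ((n : ℝ) + 2) * (3 : ℝ) ^ (n + 2) * E j x p t + cj j * Z x p t := by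
  refine (term_le j x p t).trans ?_
  have hE := Pool.Agent.W740.TL.E_pos j x p t
  have hZ := Pool.Agent.W819.TL.Z_pos sum_thm x p t
  have hc : 0 ≤ cj j := by unfold cj; positivity
  rcases Nat.lt_or_ge j.natAbs (n + 3) with hj | hj
  · have h1 : |(j : ℝ)| * (3 : ℝ) ^ j.natAbs ≤ ((n : ℝ) + 2) * (3 : ℝ) ^ (n + 2) := by
      apply mul_le_mul _ _ (by positivity) (by positivity)
      · rw [abs_cast]
        have : j.natAbs ≤ n + 2 := by omega
        exact_mod_cast this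
      · exact pow_le_pow_right₀ (by norm_num) (by omega)
    have h2 := mul_le_mul_of_nonneg_right h1 hE.le
    have h3 : 0 ≤ cj j * Z x p t := by positivity
    linarith
  · have h1 := E_large n j x p t hn hj
    have h2 : |(j : ℝ)| * (3 : ℝ) ^ j.natAbs * E j x p t ≤
        |(j : ℝ)| * (3 : ℝ) ^ j.natAbs * (Real.exp (-((3 : ℝ) ^ j.natAbs / 5)) * Z x p t) :=
      mul_le_mul_of_nonneg_left h1 (by positivity)
    have h3 := mul_le_mul_of_nonneg_right (cj_ge j) hZ.le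
    have h4 : 0 ≤ ((n : ℝ) + 2) * (3 : ℝ) ^ (n + 2) * E j x p t := by positivity
    linarith

/-- small `|j|` -/
theorem small_bound (n : ℕ) (x p t : ℝ) (hn1 : (3 : ℝ) ^ n ≤ 1 + |p|) :
    ((n : ℝ) + 2) * (3 : ℝ) ^ (n + 2) ≤ 81 * (1 + |h x p t|) := by
  have hZ := Pool.Agent.W819.TL.Z_pos sum_thm x p t
  have h1 : n * |p| - 11 / 12 * (3 : ℝ) ^ n ≤ h x p t := by
    unfold h
    rw [Real.le_log_iff_exp_le hZ]
    exact Z_ge n x p t
  have h2 : h x p t ≤ |h x p t| := le_abs_self _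
  have h0 : 0 ≤ |h x p t| := abs_nonneg _
  have hq := abs_nonneg p
  rw [pow_add]
  rcases Nat.lt_or_ge n 2 with hn | hn
  · interval_cases n <;> norm_num <;> linarith
  · have h3 : (9 : ℝ) ≤ (3 : ℝ) ^ n := by
      calc (9 : ℝ) = (3 : ℝ) ^ 2 := by norm_num
        _ ≤ (3 : ℝ) ^ n := pow_le_pow_right₀ (by norm_num) hn
    have h4 : (8 : ℝ) ≤ |p| := by linarith
    have h5 : (2 : ℝ) ≤ n := by exact_mod_cast hn
    have h6 : (3 : ℝ) ^ n ≤ 9 / 8 * |p| := by linarith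
    have h7 : ((n : ℝ) - 33 / 32) * |p| ≤ h x p t := by nlinarith
    have h8 : 31 / 64 * (n * |p|) ≤ ((n : ℝ) - 33 / 32) * |p| := by nlinarith
    have h9 : ((n : ℝ) + 2) * ((3 : ℝ) ^ n * (3 : ℝ) ^ 2) ≤ 81 / 4 * (n * |p|) := by
      have e1 : ((n : ℝ) + 2) * ((3 : ℝ) ^ n * (3 : ℝ) ^ 2) ≤
          (2 * n) * ((9 / 8 * |p|) * (3 : ℝ) ^ 2) := by
        apply mul_le_mul (by linarith) _ (by positivity) (by positivity)
        apply mul_le_mul_of_nonneg_right h6 (by norm_num)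
      nlinarith [e1]
    linarith

open Pool.Agent.Run7.h506.TA in
/-- **GRT.** -/
theorem t_GRT : S_GRT := by
  refine ⟨81 + ∑' j, cj j, ?_⟩
  intro x p t
  have hZ := Pool.Agent.W819.TL.Z_pos sum_thm x p t
  have hd : HasDerivAt (fun s => h x p s)
      ((∑' j : ℤ, (j : ℝ) * ((3 : ℝ) ^ j.natAbs * Co (x - j * t)) * E j x p t) / Z x p t) t :=
    (tder x p t).log hZ.ne'
  rw [hd.deriv, abs_div, abs_of_pos hZ, div_le_iff₀ hZ]
  obtain ⟨n, hn1, hn2⟩ := exists_nat_pow_near (x := 1 + |p|) (y := (3 : ℝ))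
    (by linarith [abs_nonneg p]) (by norm_num)
  have hC0 : 0 ≤ ∑' j, cj j := tsum_nonneg fun j => by unfold cj; positivity
  have hs : HasSum (fun j : ℤ => ((n : ℝ) + 2) * (3 : ℝ) ^ (n + 2) * E j x p t +
      cj j * Z x p t) (((n : ℝ) + 2) * (3 : ℝ) ^ (n + 2) * Z x p t + (∑' j, cj j) * Z x p t) :=
    ((Pool.Agent.W819.TL.E_summable sum_thm x p t).hasSum.mul_left _).add
      (summable_cj.hasSum.mul_right _)
  have h1 := tsum_of_norm_bounded hs fun j => bound_term n j x p t hn2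
  rw [Real.norm_eq_abs] at h1
  have h2 := small_bound n x p t hn1
  have h3 : ((n : ℝ) + 2) * (3 : ℝ) ^ (n + 2) * Z x p t ≤ 81 * (1 + |h x p t|) * Z x p t :=
    mul_le_mul_of_nonneg_right h2 hZ.le
  have h4 : (∑' j, cj j) * Z x p t ≤ (∑' j, cj j) * (1 + |h x p t|) * Z x p t := by
    apply mul_le_mul_of_nonneg_right _ hZ.le
    have := abs_nonneg (h x p t)
    nlinarith
  calc |∑' j : ℤ, (j : ℝ) * ((3 : ℝ) ^ j.natAbs * Co (x - j * t)) * E j x p t|
      ≤ ((n : ℝ) + 2) * (3 : ℝ) ^ (n + 2) * Z x p t + (∑' j, cj j) * Z x p t := h1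
    _ ≤ 81 * (1 + |h x p t|) * Z x p t + (∑' j, cj j) * (1 + |h x p t|) * Z x p t :=
        add_le_add h3 h4
    _ = (81 + ∑' j, cj j) * (1 + |h x p t|) * Z x p t := by ring

end Run7.h760.TA
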